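import Pool.Agent.N178.HW.Defs

/-!
# The shift of the weight (subtask GHC/F of helper178)
-/

set_option autoImplicit false
set_option linter.unusedSectionVars false

namespace Pool.Agent.N216.GHC

open Finset Pool.Agent.N178.HW Pool.Agent.V1168.GH

variable {R P : Type} [Fintype R] [DecidableEq R] [DecidableEq P]
  {cls : R → P} {b : P → P} {inv : R → R} {jj : R → ℂ} {X : R → Prop} [DecidablePred X] {h : R → ℤ}

theorem sum_toNat (hF : Fr cls b inv jj X) (f : R → ℤ) (hf : ∀ x, f (inv x) = -f x) :
    ((∑ x, (f x).toNat : ℕ) : ℤ) = ∑ x ∈ univ.filter (fun x => X x), |f x| := by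
  push_cast
  rw [← sum_filter_add_sum_filter_not univ (fun x => X x)]
  have h1 : ∑ x ∈ univ.filter (fun x => ¬ X x), ((f x).toNat : ℤ) =
      ∑ x ∈ univ.filter (fun x => X x), ((f (inv x)).toNat : ℤ) := by
    refine sum_nbij' inv inv ?_ ?_ ?_ ?_ ?_
    · intro x hx
      simp only [mem_filter, mem_univ, true_and] at hx ⊢
      exact (hF.Xi x).2 hx
    · intro x hx
      simp only [mem_filter, mem_univ, true_and] at hx ⊢
      rw [hF.Xi]
      exact not_not.2 hx
    · intro x _
      exact hF.ii x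
    · intro x _
      exact hF.ii x
    · intro x _
      rw [hF.ii]
  rw [h1, ← sum_add_distrib]
  refine sum_congr rfl fun x _ => ?_
  rw [hf]
  rcases le_total 0 (f x) with h | h
  · rw [abs_of_nonneg h]
    omega
  · rw [abs_of_nonpos h]
    omega

theorem sum_a [Fintype P] (hb : ∀ p, b (b p) = p) (e : P → ℤ)
    (he : ∀ p, e p = (XS cls X p).card - (XS cls X (b p)).card) (a : P → ℤ)
    (ha : ∀ p, a (b p) = -a p) (hs : ∑ p, a p * e p = 0) :
    ∑ x ∈ univ.filter (fun x => X x), a (cls x) = 0 := by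
  have h1 : ∑ x ∈ univ.filter (fun x => X x), a (cls x) =
      ∑ p, a p * ((XS cls X p).card : ℤ) := by
    rw [← sum_fiberwise (univ.filter (fun x => X x)) cls]
    refine sum_congr rfl fun p _ => ?_
    rw [filter_filter, XS]
    rw [sum_congr rfl (g := fun _ => a p)]
    · rw [sum_const, nsmul_eq_mul, mul_comm]
    · intro x hx
      rw [(mem_filter.1 hx).2.2]
  have h2 : ∑ p, a p * ((XS cls X (b p)).card : ℤ) = - ∑ p, a p * ((XS cls X p).card : ℤ) := by
    have h3 := Equiv.sum_comp (Function.Involutive.toPerm b hb)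
      (fun p => a p * ((XS cls X p).card : ℤ))
    rw [← h3, ← sum_neg_distrib]
    refine sum_congr rfl fun p _ => ?_
    change a p * ((XS cls X (b p)).card : ℤ) = -(a (b p) * ((XS cls X (b p)).card : ℤ))
    rw [ha]
    ring
  have h4 : ∑ p, a p * e p = ∑ p, a p * ((XS cls X p).card : ℤ) -
      ∑ p, a p * ((XS cls X (b p)).card : ℤ) := by
    rw [← sum_sub_distrib]
    refine sum_congr rfl fun p _ => ?_
    rw [he]
    ring
  rw [h2] at h4
  rw [h1]
  linarith

/-- The conclusion from an involution with constant sign. -/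
theorem fin_of [Fintype P] (hF : Fr cls b inv jj X) (hb : ∀ p, b (b p) = p) (e : P → ℤ)
    (he : ∀ p, e p = (XS cls X p).card - (XS cls X (b p)).card) {c : R → ℤ}
    (hc : ∀ x, c (inv x) = -c x) {n : ℕ} (hn : ∀ τ : R → R, (∀ x, τ (τ x) = x) →
      (∀ x, τ (inv x) = inv (τ x)) → (∀ x, cls (τ x) = cls x) →
      |∑ x ∈ univ.filter (fun x => X x), c (τ x)| ≤ n) (a : P → ℤ)
    (ha : ∀ p, a (b p) = -a p) (hs : ∑ p, a p * e p = 0) (τ : R → R) (t1 : ∀ x, τ (τ x) = x)
    (t2 : ∀ x, τ (inv x) = inv (τ x)) (t3 : ∀ x, cls (τ x) = cls x)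
    (hsg : (∀ x, X x → 0 ≤ c (τ x) + a (cls x)) ∨ (∀ x, X x → c (τ x) + a (cls x) ≤ 0)) :
    ∑ x, (c x + a (cls x)).toNat ≤ n := by
  have h0 := hn τ t1 t2 t3
  have h1 : ∑ x, (c x + a (cls x)).toNat = ∑ x, (c (τ x) + a (cls x)).toNat := by
    have h3 := Equiv.sum_comp (Function.Involutive.toPerm τ t1)
      (fun x => (c x + a (cls x)).toNat)
    rw [← h3]
    refine sum_congr rfl fun x _ => ?_
    change (c (τ x) + a (cls (τ x))).toNat = _
    rw [t3]
  have h2 := sum_toNat hF (fun x => c (τ x) + a (cls x)) (fun x => by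
    rw [t2, hc, hF.ci, ha]
    ring)
  have h3 := sum_a (X := X) (cls := cls) hb e he a ha hs
  rw [h1]
  have h4 : ∑ x ∈ univ.filter (fun x => X x), (c (τ x) + a (cls x)) =
      ∑ x ∈ univ.filter (fun x => X x), c (τ x) := by
    rw [sum_add_distrib, h3, add_zero]
  have h5 : ((∑ x, (c (τ x) + a (cls x)).toNat : ℕ) : ℤ) ≤ n := by
    rw [h2]
    rcases hsg with hsg | hsg
    · rw [sum_congr rfl (g := fun x => c (τ x) + a (cls x)), h4]
      · exact (le_abs_self _).trans h0
      · intro x hx
        exact abs_of_nonneg (hsg x (mem_filter.1 hx).2)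
    · rw [sum_congr rfl (g := fun x => -(c (τ x) + a (cls x))), sum_neg_distrib, h4]
      · exact (neg_le_abs _).trans h0
      · intro x hx
        exact abs_of_nonpos (hsg x (mem_filter.1 hx).2)
  exact_mod_cast h5

/-! ### The reversal -/

section rev

variable (cls h)

def Lo (x : R) : Finset R := univ.filter fun y => cls y = cls x ∧ h y < h x
def Hi (x : R) : Finset R := univ.filter fun y => cls y = cls x ∧ h x < h y
def Cl (p : P) : Finset R := univ.filter fun y => cls y = p

variable {cls h}

theorem lo_add_hi (hh : ∀ x y, cls x = cls y → h x = h y → x = y) (x : R) :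
    (Lo cls h x).card + (Hi cls h x).card + 1 = (Cl cls (cls x)).card := by
  have h1 : Cl cls (cls x) = insert x (Lo cls h x ∪ Hi cls h x) := by
    ext y
    simp only [Cl, Lo, Hi, mem_filter, mem_univ, true_and, mem_insert, mem_union]
    constructor
    · intro hy
      rcases lt_trichotomy (h y) (h x) with h1 | h1 | h1
      · exact Or.inr (Or.inl ⟨hy, h1⟩)
      · exact Or.inl (hh y x hy h1)
      · exact Or.inr (Or.inr ⟨hy, h1⟩)
    · rintro (rfl | ⟨h1, -⟩ | ⟨h1, -⟩)
      · rfl
      · exact h1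
      · exact h1
  have h2 : Disjoint (Lo cls h x) (Hi cls h x) := by
    rw [disjoint_left]
    intro y hy hy'
    have h3 := (mem_filter.1 hy).2.2
    have h4 := (mem_filter.1 hy').2.2
    omega
  rw [h1, card_insert_of_notMem, card_union_of_disjoint h2]
  intro hx
  rcases mem_union.1 hx with hx | hx
  · have h3 := (mem_filter.1 hx).2.2
    omega
  · have h3 := (mem_filter.1 hx).2.2
    omega

theorem lo_inj (hh : ∀ x y, cls x = cls y → h x = h y → x = y) {x y : R} (hxy : cls x = cls y)
    (h1 : (Lo cls h x).card = (Lo cls h y).card) : x = y := by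
  refine hh x y hxy ?_
  by_contra hne
  have key : ∀ {x y : R}, cls x = cls y → h x < h y → (Lo cls h x).card < (Lo cls h y).card := by
    intro x y hxy hlt
    apply card_lt_card
    rw [ssubset_iff_of_subset]
    · refine ⟨x, mem_filter.2 ⟨mem_univ _, hxy, hlt⟩, fun hx => ?_⟩
      have := (mem_filter.1 hx).2.2
      omega
    · intro z hz
      have h2 := (mem_filter.1 hz).2
      exact mem_filter.2 ⟨mem_univ _, h2.1.trans hxy, h2.2.trans hlt⟩
  rcases lt_or_gt_of_ne hne with h2 | h2
  · have := key hxy h2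
    omega
  · have := key hxy.symm h2
    omega

theorem lo_surj (hh : ∀ x y, cls x = cls y → h x = h y → x = y) (p : P) (k : ℕ)
    (hk : k < (Cl cls p).card) : ∃ x, cls x = p ∧ (Lo cls h x).card = k := by
  have h1 : (Cl cls p).image (fun x => (Lo cls h x).card) = range (Cl cls p).card := by
    apply eq_of_subset_of_card_le
    · intro m hm
      rw [mem_image] at hm
      obtain ⟨x, hx, rfl⟩ := hm
      have hx' : cls x = p := (mem_filter.1 hx).2
      rw [mem_range]
      have := lo_add_hi hh x
      rw [hx'] at this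
      omega
    · rw [card_range, card_image_of_injOn]
      intro x hx y hy hxy
      have hx' : cls x = p := (mem_filter.1 hx).2
      have hy' : cls y = p := (mem_filter.1 hy).2
      exact lo_inj hh (hx'.trans hy'.symm) hxy
  have h2 : k ∈ (Cl cls p).image (fun x => (Lo cls h x).card) := by
    rw [h1]
    exact mem_range.2 hk
  rw [mem_image] at h2
  obtain ⟨x, hx, hxk⟩ := h2
  exact ⟨x, (mem_filter.1 hx).2, hxk⟩

theorem lo_inv (hF : Fr cls b inv jj X) (hb : ∀ p, b (b p) = p) (ho : ∀ x, h (inv x) = -h x)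
    (x : R) : (Lo cls h (inv x)).card = (Hi cls h x).card := by
  have key : ∀ y, cls y = b (cls x) → cls (inv y) = cls x := fun y hy => by
    rw [hF.ci, hy, hb]
  refine card_bij' (fun y _ => inv y) (fun y _ => inv y) ?_ ?_ ?_ ?_
  · intro y hy
    have h1 := (mem_filter.1 hy).2
    rw [hF.ci, ho] at h1
    refine mem_filter.2 ⟨mem_univ _, key y h1.1, ?_⟩
    rw [ho]
    linarith [h1.2]
  · intro y hy
    have h1 := (mem_filter.1 hy).2
    refine mem_filter.2 ⟨mem_univ _, ?_, ?_⟩
    · rw [hF.ci, hF.ci, h1.1]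
    · rw [ho, ho]
      linarith [h1.2]
  · intro y _
    exact hF.ii y
  · intro y _
    exact hF.ii y

theorem exists_rev (hF : Fr cls b inv jj X) (hb : ∀ p, b (b p) = p) (ho : ∀ x, h (inv x) = -h x)
    (hh : ∀ x y, cls x = cls y → h x = h y → x = y) :
    ∃ τ : R → R, (∀ x, τ (τ x) = x) ∧ (∀ x, τ (inv x) = inv (τ x)) ∧ (∀ x, cls (τ x) = cls x) ∧
      ∀ x, (Lo cls h (τ x)).card = (Hi cls h x).card := by
  have h1 : ∀ x, ∃ y, cls y = cls x ∧ (Lo cls h y).card = (Hi cls h x).card := fun x =>
    lo_surj hh (cls x) _ (by have := lo_add_hi hh x; omega)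
  choose τ hτ1 hτ2 using h1
  have h2 : ∀ x, (Hi cls h (τ x)).card = (Lo cls h x).card := fun x => by
    have h3 := lo_add_hi hh x
    have h4 := lo_add_hi hh (τ x)
    rw [hτ1, hτ2] at h4
    omega
  refine ⟨τ, fun x => ?_, fun x => ?_, hτ1, hτ2⟩
  · refine lo_inj hh ((hτ1 _).trans (hτ1 _)) ?_
    rw [hτ2, h2]
  · refine lo_inj hh ?_ ?_
    · rw [hτ1, hF.ci, hF.ci, hτ1]
    · rw [hτ2, lo_inv hF hb ho, h2]
      have h3 := lo_inv hF hb ho (inv x)
      rw [hF.ii] at h3
      exact h3.symm

end rev

theorem card_notX (hF : Fr cls b inv jj X) (hb : ∀ p, b (b p) = p) (p : P) :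
    (univ.filter fun y => cls y = p ∧ ¬ X y).card = (XS cls X (b p)).card := by
  refine card_bij' (fun y _ => inv y) (fun y _ => inv y) ?_ ?_ ?_ ?_
  · intro y hy
    have h1 := (mem_filter.1 hy).2
    rw [mem_XS]
    exact ⟨(hF.Xi y).2 h1.2, by rw [hF.ci, h1.1]⟩
  · intro y hy
    rw [mem_XS] at hy
    refine mem_filter.2 ⟨mem_univ _, ?_, ?_⟩
    · rw [hF.ci, hy.2, hb]
    · rw [hF.Xi]
      exact not_not.2 hy.1
  · intro y _
    exact hF.ii y
  · intro y _
    exact hF.ii y

/-- The smallest value of `c` on `XS p`. -/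
noncomputable def mm (cls : R → P) (X : R → Prop) [DecidablePred X] (c : R → ℤ) (p : P) : ℤ :=
  if hp : (XS cls X p).Nonempty then (XS cls X p).inf' hp c else 0

theorem mm_le {c : R → ℤ} {x : R} (hx : X x) : mm cls X c (cls x) ≤ c x := by
  have h1 : x ∈ XS cls X (cls x) := mem_XS.2 ⟨hx, rfl⟩
  rw [mm, dif_pos ⟨x, h1⟩]
  exact inf'_le _ h1

theorem mm_mem {c : R → ℤ} {p : P} (hp : (XS cls X p).Nonempty) :
    ∃ x, X x ∧ cls x = p ∧ mm cls X c p = c x := by
  rw [mm, dif_pos hp]
  obtain ⟨x, hx, hx'⟩ := exists_mem_eq_inf' hp c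
  rw [mem_XS] at hx
  exact ⟨x, hx.1, hx.2, hx'⟩

theorem mm_add (hF : Fr cls b inv jj X) (hH : Hgt cls inv X h) (hb : ∀ p, b (b p) = p) {c : R → ℤ}
    (hc : ∀ x, c (inv x) = -c x) (hm : ∀ x y, cls x = cls y → h x < h y → c x ≤ c y) {p : P}
    (h1 : (XS cls X p).card = (XS cls X (b p)).card ∨ ((XS cls X p).Nonempty ∧
      (XS cls X (b p)).Nonempty)) : 0 ≤ mm cls X c p + mm cls X c (b p) := by
  by_cases hp : (XS cls X p).Nonempty
  · have hp' : (XS cls X (b p)).Nonempty := by
      rcases h1 with h1 | h1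
      · rw [← card_pos, ← h1]
        exact card_pos.2 hp
      · exact h1.2
    obtain ⟨x, hx, hxp, hxm⟩ := mm_mem (c := c) hp
    obtain ⟨y, hy, hyp, hym⟩ := mm_mem (c := c) hp'
    rw [hxm, hym]
    have h2 : cls (inv y) = cls x := by rw [hF.ci, hyp, hb, hxp]
    have h3 : ¬ X (inv y) := by
      rw [hF.Xi]
      exact not_not.2 hy
    have h4 := hm _ _ h2 (hH.top x (inv y) h2.symm hx h3)
    rw [hc] at h4
    linarith
  · have hp' : ¬ (XS cls X (b p)).Nonempty := by
      rcases h1 with h1 | h1
      · rw [← card_pos, ← h1, card_pos]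
        exact hp
      · exact absurd h1.1 hp
    rw [mm, mm, dif_neg hp, dif_neg hp']
    norm_num

theorem t_SHIFT : S_SHIFT := by
  classical
  intro R P _ _ _ _ cls b inv jj X _ h hF hH hb e he he' hq c hc hm n hn
  set m : P → ℤ := mm cls X c with hmdef
  have heb : ∀ p, e (b p) = - e p := fun p => by
    rw [he, he, hb]
    ring
  let a0 : P → ℤ := fun p => if e p = 1 then - m p else if e p = -1 then m (b p) else
    max (- m p) (min 0 (m (b p)))
  have ha0 : ∀ p, a0 (b p) = - a0 p := by
    intro p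
    simp only [a0]
    rw [heb, hb]
    rcases he' p with h1 | h1 | h1
    · rw [h1]
      norm_num
    · rw [h1]
      have h2 : 0 ≤ m p + m (b p) := mm_add hF hH hb hc hm (Or.inl (by
        have := he p
        omega))
      simp only [neg_zero, zero_ne_one, if_false]
      norm_num
      omega
    · rw [h1]
      norm_num
  have hS1 : ∀ x, X x → 0 ≤ c x + a0 (cls x) := by
    intro x hx
    have h1 : m (cls x) ≤ c x := mm_le hx
    have h2 : (XS cls X (cls x)).Nonempty := ⟨x, mem_XS.2 ⟨hx, rfl⟩⟩
    simp only [a0]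
    rcases he' (cls x) with h3 | h3 | h3
    · rw [h3]
      norm_num
      have h4 : 0 ≤ m (cls x) + m (b (cls x)) := mm_add hF hH hb hc hm (Or.inr ⟨h2, by
        rw [← card_pos]
        have := he (cls x)
        omega⟩)
      linarith
    · rw [h3]
      norm_num
      omega
    · rw [h3]
      norm_num
      linarith
  have hS2 : ∀ x, ¬ X x → c x + a0 (cls x) ≤ 0 := by
    intro x hx
    have h1 := hS1 (inv x) ((hF.Xi x).2 hx)
    rw [hc, hF.ci, ha0] at h1
    linarith
  by_cases hex : ∃ p, e p ≠ 0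
  swap
  · push Not at hex
    refine ⟨a0, ha0, ?_, ?_⟩
    · exact sum_eq_zero fun p _ => by rw [hex, mul_zero]
    · exact fin_of hF hb e he hc hn a0 ha0 (sum_eq_zero fun p _ => by rw [hex, mul_zero])
        id (fun _ => rfl) (fun _ => rfl) (fun _ => rfl) (Or.inl hS1)
  -- the class `q`
  obtain ⟨q, hq1, hqc⟩ : ∃ q, e q = 1 ∧ (univ.filter fun x => cls x = q).card = 1 := by
    obtain ⟨q, hq1, hq2⟩ := hq hex
    rcases he' q with h1 | h1 | h1
    · refine ⟨b q, by rw [heb, h1]; norm_num, ?_⟩
      rw [← hq2]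
      refine card_bij' (fun y _ => inv y) (fun y _ => inv y) ?_ ?_ ?_ ?_
      · intro y hy
        have h1 := (mem_filter.1 hy).2
        exact mem_filter.2 ⟨mem_univ _, by rw [hF.ci, h1, hb]⟩
      · intro y hy
        have h1 := (mem_filter.1 hy).2
        exact mem_filter.2 ⟨mem_univ _, by rw [hF.ci, h1]⟩
      · intro y _
        exact hF.ii y
      · intro y _
        exact hF.ii y
    · exact absurd h1 hq1
    · exact ⟨q, h1, hq2⟩
  have hqb : b q ≠ q := fun h1 => by
    have := heb q
    rw [h1, hq1] at this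
    omega
  obtain ⟨x0, hx0⟩ := card_eq_one.1 hqc
  have hx0q : cls x0 = q := by
    have h1 : x0 ∈ univ.filter fun x => cls x = q := by rw [hx0]; exact mem_singleton_self _
    exact (mem_filter.1 h1).2
  have huq : ∀ x, cls x = q → x = x0 := fun x hx => by
    have h1 : x ∈ univ.filter fun x => cls x = q := mem_filter.2 ⟨mem_univ _, hx⟩
    rw [hx0] at h1
    exact mem_singleton.1 h1
  have hX0 : X x0 := by
    have h1 := he q
    rw [hq1] at h1
    have h2 : (XS cls X q).Nonempty := by
      rw [← card_pos]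
      omega
    obtain ⟨y, hy⟩ := h2
    rw [mem_XS] at hy
    rw [← huq y hy.2]
    exact hy.1
  have hubq : ∀ x, X x → cls x ≠ b q := fun x hx hxq => by
    have h1 : cls (inv x) = q := by rw [hF.ci, hxq, hb]
    have h2 := huq _ h1
    have h3 : X (inv x) := by rw [h2]; exact hX0
    exact (hF.Xi x).1 h3 hx
  let s : ℤ := ∑ p ∈ (univ.filter fun p => e p = 1).erase q, m p
  let a : P → ℤ := fun p => if p = q then s else if p = b q then -s else a0 p
  have ha : ∀ p, a (b p) = - a p := by
    intro p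
    simp only [a]
    by_cases h1 : p = q
    · rw [if_neg (by rw [h1]; exact hqb), if_pos (by rw [h1]), if_pos h1]
    · by_cases h2 : p = b q
      · rw [if_pos (by rw [h2, hb]), if_neg h1, if_pos h2, neg_neg]
      · rw [if_neg, if_neg, if_neg h1, if_neg h2, ha0]
        · intro h3
          apply h1
          rw [← hb p, h3, hb]
        · intro h3
          apply h2
          rw [← hb p, h3]
  have hs : ∑ p, a p * e p = 0 := by
    have h1 : ∑ p, a p * e p = ∑ p ∈ univ.filter (fun p => e p = 1), a p -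
        ∑ p ∈ univ.filter (fun p => e p = -1), a p := by
      rw [sum_filter, sum_filter, ← sum_sub_distrib]
      refine sum_congr rfl fun p _ => ?_
      rcases he' p with h1 | h1 | h1
      · rw [h1]
        norm_num
      · rw [h1]
        norm_num
      · rw [h1]
        norm_num
    have h2 : ∑ p ∈ univ.filter (fun p => e p = -1), a p =
        - ∑ p ∈ univ.filter (fun p => e p = 1), a p := by
      rw [← sum_neg_distrib]
      refine sum_nbij' b b ?_ ?_ ?_ ?_ ?_
      · intro p hp
        simp only [mem_filter, mem_univ, true_and] at hp ⊢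
        rw [heb, hp]
        norm_num
      · intro p hp
        simp only [mem_filter, mem_univ, true_and] at hp ⊢
        rw [heb, hp]
      · intro p _
        exact hb p
      · intro p _
        exact hb p
      · intro p _
        rw [ha, neg_neg]
    have h3 : ∑ p ∈ univ.filter (fun p => e p = 1), a p = 0 := by
      rw [← add_sum_erase _ _ (mem_filter.2 ⟨mem_univ q, hq1⟩)]
      have h4 : a q = s := by
        simp [a]
      have h5 : ∑ p ∈ (univ.filter fun p => e p = 1).erase q, a p = - s := by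
        rw [← sum_neg_distrib]
        refine sum_congr rfl fun p hp => ?_
        rw [mem_erase, mem_filter] at hp
        have h6 : p ≠ b q := fun h6 => by
          have := hp.2.2
          rw [h6, heb, hq1] at this
          omega
        simp only [a, a0]
        rw [if_neg hp.1, if_neg h6, if_pos hp.2.2]
      rw [h4, h5]
      ring
    rw [h1, h2, h3]
    ring
  have haa : ∀ p, p ≠ q → p ≠ b q → a p = a0 p := fun p h1 h2 => by
    simp only [a]
    rw [if_neg h1, if_neg h2]
  have hS1' : ∀ x, X x → x ≠ x0 → 0 ≤ c x + a (cls x) := fun x hx hxx => by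
    rw [haa _ (fun h1 => hxx (huq x h1)) (hubq x hx)]
    exact hS1 x hx
  refine ⟨a, ha, hs, ?_⟩
  rcases le_or_gt 0 (c x0 + a (cls x0)) with hc0 | hc0
  · refine fin_of hF hb e he hc hn a ha hs id (fun _ => rfl) (fun _ => rfl) (fun _ => rfl)
      (Or.inl fun x hx => ?_)
    by_cases hxx : x = x0
    · rw [hxx]
      exact hc0
    · exact hS1' x hx hxx
  · obtain ⟨τ, t1, t2, t3, t4⟩ := exists_rev hF hb hH.odd hH.inj
    refine fin_of hF hb e he hc hn a ha hs τ t1 t2 t3 (Or.inr fun x hx => ?_)
    rw [← t3 x]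
    by_cases hpq : cls x = q
    · have h1 : τ x = x0 := huq _ ((t3 x).trans hpq)
      rw [h1]
      exact hc0.le
    have hpb := hubq x hx
    rw [haa _ (by rw [t3]; exact hpq) (by rw [t3]; exact hpb)]
    by_cases hτX : X (τ x)
    swap
    · exact hS2 _ hτX
    -- the elements above `x` are in `X`
    have h1 : (Hi cls h x).card + 1 ≤ (XS cls X (cls x)).card := by
      have h2 : insert x (Hi cls h x) ⊆ XS cls X (cls x) := by
        intro y hy
        rw [mem_insert] at hy
        rcases hy with rfl | hy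
        · exact mem_XS.2 ⟨hx, rfl⟩
        · have h3 := (mem_filter.1 hy).2
          refine mem_XS.2 ⟨?_, h3.1⟩
          by_contra hyX
          have := hH.top x y h3.1.symm hx hyX
          omega
      have h3 := card_le_card h2
      rwa [card_insert_of_notMem] at h3
      intro h4
      have := (mem_filter.1 h4).2.2
      omega
    -- the elements which are not in `X` are below `τ x`
    have h2 : (univ.filter fun y => cls y = cls x ∧ ¬ X y) ⊆ Lo cls h (τ x) := by
      intro y hy
      have h3 := (mem_filter.1 hy).2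
      refine mem_filter.2 ⟨mem_univ _, h3.1.trans (t3 x).symm, ?_⟩
      exact hH.top (τ x) y ((t3 x).trans h3.1.symm) hτX h3.2
    have h3 := card_le_card h2
    rw [card_notX hF hb, t4] at h3
    have h4 := he (cls x)
    have h5 : e (cls x) = 1 := by
      rcases he' (cls x) with h5 | h5 | h5 <;> omega
    have h6 : (univ.filter fun y => cls y = cls x ∧ ¬ X y) = Lo cls h (τ x) := by
      refine eq_of_subset_of_card_le h2 ?_
      rw [card_notX hF hb, t4]
      omega
    have h7 : (XS cls X (cls x)).Nonempty := ⟨x, mem_XS.2 ⟨hx, rfl⟩⟩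
    obtain ⟨y, hy, hyp, hym⟩ := mm_mem (c := c) h7
    have h8 : y ∉ Lo cls h (τ x) := by
      rw [← h6]
      intro h9
      exact (mem_filter.1 h9).2.2 hy
    have h9 : c (τ x) ≤ c y := by
      have h10 : ¬ h y < h (τ x) := fun h10 =>
        h8 (mem_filter.2 ⟨mem_univ _, hyp.trans (t3 x).symm, h10⟩)
      rcases (not_lt.1 h10).lt_or_eq with h11 | h11
      · exact hm _ _ ((t3 x).trans hyp.symm) h11
      · rw [hH.inj _ _ ((t3 x).trans hyp.symm) h11]
    have h10 : a0 (cls (τ x)) = - m (cls x) := by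
      simp only [a0]
      rw [t3, if_pos h5]
    rw [h10, hmdef, hym]
    linarith

end Pool.Agent.N216.GHC
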